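import Mathlib

/-!
# The cell expander (MP_c59857_nt, N4)

Positions are natural numbers. The window number `y` is `[S y, S y + M)`, cells are
`[S m, S (m + 1))`, primes are taken from `(P, 2 P]`, an edge is a pair `e = (n, p)` with `n < M`;
it joins the cell of `S y + n` and the cell of `S y + n + a p`.
-/

set_option autoImplicit false

open Finset Matrix

namespace Pool.Agent.H10.CE

/-- `e (t)` -/
noncomputable def ee (t : ℝ) : ℂ := Complex.exp (((2 * Real.pi * t : ℝ) : ℂ) * Complex.I)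

/-- the primes in `(P, 2 P]` -/
def Pr (P : ℕ) : Finset ℕ := (Finset.Ioc P (2 * P)).filter Nat.Prime

/-- the weight `p 1_(p | S y + n) - 1` of the edge `e = (n, p)` in the window `y` -/
def wt (S y : ℕ) (e : ℕ × ℕ) : ℝ := if e.2 ∣ S * y + e.1 then (e.2 : ℝ) - 1 else -1

/-- the edges -/
def Ed (M P : ℕ) : Finset (ℕ × ℕ) := Finset.range M ×ˢ Pr P

/-- the left cell of an edge -/
def lc (S : ℕ) (e : ℕ × ℕ) : ℕ := e.1 / S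

/-- the right cell of an edge -/
def rc (S a : ℕ) (e : ℕ × ℕ) : ℕ := (e.1 + a * e.2) / S

/-- walks: consecutive edges share the left cell and the right cell in turn -/
def Wk {ι : Type} (l r : ι → ℕ) {m : ℕ} (w : Fin m → ι) : Prop :=
  ∀ i j : Fin m, (j : ℕ) = i + 1 →
    (if (i : ℕ) % 2 = 0 then l (w i) = l (w j) else r (w i) = r (w j))

/-- every prime of the walk occurs at least twice -/
def Gd {m : ℕ} (e : Fin m → ℕ × ℕ) : Prop := ∀ t, ∃ t', t' ≠ t ∧ (e t').2 = (e t).2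

open Classical in
/-- `p` if an earlier edge has the same prime `p` and the same residue modulo `p` -/
noncomputable def uu {m : ℕ} (e : Fin m → ℕ × ℕ) (t : Fin m) : ℝ :=
  if ∃ t' < t, (e t').2 = (e t).2 ∧ (e t').1 % (e t).2 = (e t).1 % (e t).2 then ((e t).2 : ℝ)
  else 1

open Classical in
/-- the price of a step: new primes and repeated primes -/
noncomputable def rr {m : ℕ} (R Q : ℝ) (e : Fin m → ℕ × ℕ) (t : Fin m) : ℝ :=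
  if ∃ t' < t, (e t').2 = (e t).2 then Q else R

/-! ### linear algebra -/

/-- LOG. Powers of a positive matrix. -/
def T_LOG : Prop :=
  ∀ (J r : ℕ) (H : Matrix (Fin J) (Fin J) ℂ) (G : Fin J → ℂ), H.IsHermitian →
    (∀ v : Fin J → ℂ, 0 ≤ (star v ⬝ᵥ H.mulVec v).re) →
    (star G ⬝ᵥ H.mulVec G).re ^ (2 ^ r) ≤
      (∑ j, ‖G j‖ ^ 2) ^ (2 ^ r) * ((H ^ (2 ^ r)).trace).re

/-- OPN. The bilinear form and the trace. -/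
def T_OPN : Prop :=
  ∀ (I J r : ℕ) (A : Matrix (Fin I) (Fin J) ℂ) (F : Fin I → ℂ) (G : Fin J → ℂ),
    ‖∑ i, ∑ j, F i * G j * A i j‖ ^ (2 * 2 ^ r) ≤
      (∑ i, ‖F i‖ ^ 2) ^ (2 ^ r) * (∑ j, ‖G j‖ ^ 2) ^ (2 ^ r) *
        (((Aᴴ * A) ^ (2 ^ r)).trace).re

open Classical in
/-- WLK. The trace as a sum over closed walks. -/
def T_WLK : Prop :=
  ∀ (ι : Type) [Fintype ι] (I J k : ℕ) (l r : ι → ℕ), 1 ≤ k → (∀ e, l e < I) → (∀ e, r e < J) →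
    ∃ Cl : (Fin (2 * k) → ι) → Prop, (∀ w, Cl w → Wk l r w) ∧
      ∀ (c : ι → ℂ) (A : Matrix (Fin I) (Fin J) ℂ),
        (∀ i j, A i j = ∑ e, if l e = i ∧ r e = j then c e else 0) →
        ((Aᴴ * A) ^ k).trace = ∑ w : Fin (2 * k) → ι, if Cl w then
          ∏ t : Fin (2 * k), (if (t : ℕ) % 2 = 0 then star (c (w t)) else c (w t)) else 0

/-! ### expectations -/

/-- INC. Sums of a periodic function. -/
def T_INC : Prop :=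
  ∀ (Q Y₁ Y : ℕ) (F : ℕ → ℝ) (B : ℝ), 1 ≤ Q → (∀ y, F (y + Q) = F y) → (∀ y, |F y| ≤ B) →
    |∑ y ∈ Ico Y₁ (Y₁ + Y), F y| ≤ (Y : ℝ) / Q * |∑ y ∈ range Q, F y| + Q * B

/-- CRT. Independence of different primes. -/
def T_CRT : Prop :=
  ∀ (T : Finset ℕ) (F : ℕ → ℕ → ℝ), (∀ p ∈ T, p.Prime) → (∀ p ∈ T, ∀ y, F p (y + p) = F p y) →
    ∑ y ∈ range (∏ p ∈ T, p), ∏ p ∈ T, F p y = ∏ p ∈ T, ∑ y ∈ range p, F p y

/-- ONE. A prime which occurs once. -/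
def T_ONE : Prop :=
  ∀ (p S n : ℕ), p.Prime → 1 ≤ S → S < p → ∑ y ∈ range p, wt S y (n, p) = 0

open Classical in
/-- CLS. A class of edges with the same prime. -/
def T_CLS : Prop :=
  ∀ (p S m : ℕ) (n : Fin m → ℕ) (T : Finset (Fin m)), p.Prime → 1 ≤ S → S < p →
    |∑ y ∈ range p, ∏ t ∈ T, wt S y (n t, p)| ≤
      p * 2 ^ T.card * ∏ t ∈ T, (if ∃ t' ∈ T, t' < t ∧ n t' % p = n t % p then (p : ℝ) else 1)

open Classical in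
/-- EXP. The average of the product of the weights. -/
def T_EXP : Prop :=
  ∀ (P S m Y₁ Y : ℕ) (e : Fin m → ℕ × ℕ), 1 ≤ S → S ≤ P → (∀ t, (e t).2 ∈ Pr P) →
    |∑ y ∈ Ico Y₁ (Y₁ + Y), ∏ t, wt S y (e t)| ≤
      (if Gd e then (Y : ℝ) * 2 ^ m * ∏ t, uu e t else 0) + (2 * (P : ℝ)) ^ (2 * m)

/-! ### counting -/

/-- NEW. At most half of the steps are new. -/
def T_NEW : Prop :=
  ∀ (k : ℕ) (e : Fin (2 * k) → ℕ × ℕ) (R Q : ℝ), 0 < Q → Q ≤ R → Gd e →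
    ∏ t, rr R Q e t ≤ (R * Q) ^ k

open Classical in
/-- STE. The sum over one more step. -/
def T_STE : Prop :=
  ∀ (M P S a m : ℕ) (R Q : ℝ) (e : Fin m → ℕ × ℕ), 1 ≤ S → S ≤ P → 1 ≤ m →
    (∀ t, e t ∈ Ed M P) → R = (Pr P).card * S → 3 * (m : ℝ) ^ 2 * P ≤ Q → 0 < R →
    (∀ v : ℕ, ∑ x ∈ (Ed M P).filter (fun x => lc S x = v),
      uu (Fin.snoc e x : Fin (m + 1) → ℕ × ℕ) (Fin.last m) /
        rr R Q (Fin.snoc e x : Fin (m + 1) → ℕ × ℕ) (Fin.last m) ≤ 2) ∧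
    (∀ v : ℕ, ∑ x ∈ (Ed M P).filter (fun x => rc S a x = v),
      uu (Fin.snoc e x : Fin (m + 1) → ℕ × ℕ) (Fin.last m) /
        rr R Q (Fin.snoc e x : Fin (m + 1) → ℕ × ℕ) (Fin.last m) ≤ 2)

open Classical in
/-- CNT. The sum over all walks. -/
def T_CNT : Prop :=
  ∀ (M P S a m : ℕ) (R Q : ℝ), 1 ≤ S → S ≤ P → 1 ≤ m → R = (Pr P).card * S →
    3 * (m : ℝ) ^ 2 * P ≤ Q → 0 < R →
    ∑ w : Fin m → Ed M P, (if Wk (fun x : Ed M P => lc S x.1) (fun x : Ed M P => rc S a x.1) w then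
      ∏ t, (uu (fun i => (w i).1) t / rr R Q (fun i => (w i).1) t) else 0) ≤
      (M : ℝ) / S * 2 ^ m

/-! ### the moment bound -/

/-- the sum over the window `y`, with fixed coefficients `c p` of the primes -/
noncomputable def CS (c : ℕ → ℂ) (S M P a y : ℕ) (F G : ℕ → ℂ) (α β : ℝ) : ℂ :=
  ∑ n ∈ range M, ∑ p ∈ Pr P, (wt S y (n, p) : ℂ) *
    (c p * F (n / S) * G ((n + a * p) / S) * ee (α * n + β * p))

/-- the matrix of the window `y` -/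
noncomputable def mA (c : ℕ → ℂ) (S M P a y I J : ℕ) (α β : ℝ) : Matrix (Fin I) (Fin J) ℂ :=
  Matrix.of fun i j => ∑ e : Ed M P, if lc S e.1 = i ∧ rc S a e.1 = j then
    (wt S y e.1 : ℂ) * (c e.1.2 * ee (α * e.1.1 + β * e.1.2)) else 0

/-- MAT. The sum over a window and its matrix. -/
def T_MAT : Prop :=
  ∀ (c : ℕ → ℂ) (S M P a y r : ℕ) (F G : ℕ → ℂ) (α β : ℝ), 1 ≤ S → S ≤ M → 2 * a * P ≤ M →
    (∀ n, ‖F n‖ ≤ 1) → (∀ n, ‖G n‖ ≤ 1) →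
    ‖CS c S M P a y F G α β‖ ^ (2 * 2 ^ r) ≤ (8 * ((M : ℝ) / S) ^ 2) ^ (2 ^ r) *
      ((((mA c S M P a y (M / S + 1) ((M + 2 * a * P) / S + 1) α β)ᴴ *
        mA c S M P a y (M / S + 1) ((M + 2 * a * P) / S + 1) α β) ^ (2 ^ r)).trace).re

/-- TRB. The sum of the traces. -/
def T_TRB : Prop :=
  ∀ (c : ℕ → ℂ) (S M P a Y₁ Y k : ℕ) (α β R Q : ℝ), (∀ p, ‖c p‖ ≤ 1) → 1 ≤ S → S ≤ P → 1 ≤ k → R = (Pr P).card * S →
    Q = 12 * (k : ℝ) ^ 2 * P → Q ≤ R →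
    ∑ y ∈ Ico Y₁ (Y₁ + Y), ((((mA c S M P a y (M / S + 1) ((M + 2 * a * P) / S + 1) α β)ᴴ *
        mA c S M P a y (M / S + 1) ((M + 2 * a * P) / S + 1) α β) ^ k).trace).re ≤
      (Y : ℝ) * (M / S) * 16 ^ k * (R * Q) ^ k +
        ((M : ℝ) * (Pr P).card) ^ (2 * k) * (2 * P) ^ (4 * k)

open Classical in
/-- FIX. Few bad windows for fixed frequencies. -/
def T_FIX : Prop :=
  ∀ (c : ℕ → ℂ) (S M P a Y₁ Y r : ℕ) (α β ε R Q : ℝ), (∀ p, ‖c p‖ ≤ 1) → 0 < ε → 1 ≤ S → S ≤ P → S ≤ M → 2 * a * P ≤ M →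
    R = (Pr P).card * S → Q = 12 * ((2 : ℝ) ^ r) ^ 2 * P → Q ≤ R →
    (((Ico Y₁ (Y₁ + Y)).filter fun y => ∃ F G : ℕ → ℂ, (∀ n, ‖F n‖ ≤ 1) ∧ (∀ n, ‖G n‖ ≤ 1) ∧
      ε * M * (Pr P).card < ‖CS c S M P a y F G α β‖).card : ℝ) ≤
      (Y : ℝ) * (M / S) * (128 * Q / (ε ^ 2 * R)) ^ (2 ^ r) +
        ((M : ℝ) * (2 * P) ^ 2 * (3 / ε)) ^ (2 * 2 ^ r)

open Classical in
/-- NET. All frequencies. -/
def T_NET : Prop :=
  ∀ (c : ℕ → ℂ) (S M P a Y₁ Y : ℕ) (ε B : ℝ), (∀ p, ‖c p‖ ≤ 1) → 0 < ε → ε ≤ 1 → 1 ≤ S → 1 ≤ P → P ≤ M →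
    (∀ α β : ℝ, (((Ico Y₁ (Y₁ + Y)).filter fun y => ∃ F G : ℕ → ℂ, (∀ n, ‖F n‖ ≤ 1) ∧
      (∀ n, ‖G n‖ ≤ 1) ∧ ε / 2 * M * (Pr P).card < ‖CS c S M P a y F G α β‖).card : ℝ) ≤ B) →
    (((Ico Y₁ (Y₁ + Y)).filter fun y => ∃ (F G : ℕ → ℂ) (α β : ℝ), (∀ n, ‖F n‖ ≤ 1) ∧
      (∀ n, ‖G n‖ ≤ 1) ∧ ε * M * (Pr P).card < ‖CS c S M P a y F G α β‖).card : ℝ) ≤
      (300 * M / ε) ^ 2 * B

/-- NPR. The number of primes. -/
def T_NPR : Prop := ∃ P₀ : ℕ, ∀ P : ℕ, P₀ ≤ P →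
  (P : ℝ) / (2 * Real.log P) ≤ (Pr P).card ∧ ((Pr P).card : ℝ) ≤ P

/-- PAR. The choice of the parameters. -/
def T_PAR : Prop :=
  ∀ (ε : ℝ) (J : ℕ), 0 < ε → ε ≤ 1 → 1 ≤ J → ∃ P₀ : ℕ, ∀ (P S M Y : ℕ) (π : ℝ), P₀ ≤ P →
    Real.log P ^ 4 ≤ S → S ≤ P → P ≤ M → M ≤ P ^ 3 →
    Real.log P ^ 2 ≤ Real.log S * Real.log Y / 100000 → (P : ℝ) / (2 * Real.log P) ≤ π →
    ∃ r : ℕ, 12 * ((2 : ℝ) ^ r) ^ 2 * P ≤ π * S ∧
      J * ((300 * M / ε) ^ 2 * ((Y : ℝ) * (M / S) *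
        (128 * (12 * ((2 : ℝ) ^ r) ^ 2 * P) / ((ε / 2) ^ 2 * (π * S))) ^ (2 ^ r) +
        ((M : ℝ) * (2 * P) ^ 2 * (3 / (ε / 2))) ^ (2 * 2 ^ r))) ≤ (Y : ℝ) / P ^ 20

open Classical in
/-- CE. THE CELL EXPANDER. For all but very few windows `[S y, S y + M)` the primes which divide
`n` are decoupled from all pairs of cell functions. -/
def T_CE : Prop :=
  ∀ (ε : ℝ) (J : ℕ), 0 < ε → 1 ≤ J → ∃ P₀ : ℕ, ∀ (P S M Y₁ Y : ℕ) (c : ℕ → ℂ), P₀ ≤ P →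
    (∀ p, ‖c p‖ ≤ 1) → Real.log P ^ 4 ≤ S → S ≤ P → 2 * J * P ≤ M → M ≤ P ^ 3 →
    Real.log P ^ 2 ≤ Real.log S * Real.log Y / 100000 →
    (((Ico Y₁ (Y₁ + Y)).filter fun y => ∃ a : ℕ, 1 ≤ a ∧ a ≤ J ∧
      ∃ (f g : ℕ → ℂ) (α β : ℝ), (∀ n, ‖f n‖ ≤ 1) ∧ (∀ n, ‖g n‖ ≤ 1) ∧
        (∀ m n, m / S = n / S → f m = f n) ∧ (∀ m n, m / S = n / S → g m = g n) ∧
        ε * M * (Pr P).card < ‖∑ n ∈ Ico (S * y) (S * y + M), ∑ p ∈ Pr P,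
          (if p ∣ n then (p : ℂ) - 1 else -1) *
            (c p * f n * g (n + a * p) * ee (α * n + β * p))‖).card :
            ℝ) ≤ (Y : ℝ) / P ^ 20

end Pool.Agent.H10.CE
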