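import Pool.Agent.H12.CEX.CE
import Pool.Agent.H91.CE.CLS
import Pool.Agent.H38.CE.CNT
import Pool.Agent.H91.CE.CRT
import Pool.Agent.H91.CE.EXP
import Pool.Agent.H79.CE.FIX
import Pool.Agent.H91.CE.INC
import Pool.Agent.H68.CE.LOG
import Pool.Agent.H43.CE.MAT
import Pool.Agent.H38.CE.NET
import Pool.Agent.H38.CE.NEW
import Pool.Agent.H43.CE.NPR
import Pool.Agent.H91.CE.ONE
import Pool.Agent.H5.CE.OPN
import Pool.Agent.H50.CE.PAR
import Pool.Agent.H77.CE.STE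
import Pool.Agent.H23.CE.TRB
import Pool.Agent.H23.CE.WLK

/-!
# The cell expander (MP_c59857_nt, N4): all rows together
-/

set_option autoImplicit false

namespace Pool.Agent.H10.CE.All

open Pool.Agent.H10.CE

theorem c_OPN : T_OPN := Pool.Agent.H5.CE.pf_OPN Pool.Agent.H68.CE.pf_LOG

theorem c_EXP : T_EXP :=
  Pool.Agent.H91.CE.pf_EXP Pool.Agent.H91.CE.pf_INC Pool.Agent.H91.CE.pf_CRT
    Pool.Agent.H91.CE.pf_ONE Pool.Agent.H91.CE.pf_CLS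

theorem c_CNT : T_CNT := Pool.Agent.H38.CE.pf_CNT Pool.Agent.H77.CE.pf_STE

theorem c_TRB : T_TRB :=
  Pool.Agent.H23.CE.pf_TRB Pool.Agent.H23.CE.pf_WLK c_EXP Pool.Agent.H38.CE.pf_NEW c_CNT

theorem c_FIX : T_FIX := Pool.Agent.H79.CE.pf_FIX (Pool.Agent.H43.CE.pf_MAT c_OPN) c_TRB

/-- The cell expander. -/
theorem ce : T_CE :=
  Pool.Agent.H12.CEX.pf_CE c_FIX Pool.Agent.H38.CE.pf_NET Pool.Agent.H43.CE.pf_NPR
    Pool.Agent.H50.CE.pf_PAR

end Pool.Agent.H10.CE.All
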